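import Pool.Agent.H10.GM.Targets1

/-!
# Excluded grid theorem: many sets which meet the paths in order (module CRC)
-/

set_option autoImplicit false

namespace Pool.Agent.H51.GM

open Pool.Agent.H55.GW Pool.Agent.H10.GM

theorem crc_aux (hcra : T_CRA) (hcrb : T_CRB) (hpth : T_PTH) (V : Type) [Finite V]
    (E : V → V → Prop) (hE : Sy E) (I : Type) [Finite I] (Vt : I → Set V)
    (hc : ∀ i, Cn E (Vt i)) (hd : ∀ i i', i ≠ i' → Disjoint (Vt i) (Vt i')) (p : ℕ) (A B : Set V)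
    (hl : Lnk E p A B) :
    ∃ (P : Fin p → ℕ → V) (len : Fin p → ℕ), PSys E p A B P len ∧
      ∀ (d : ℕ) (J : Set (Fin p)) (I' : Finset I), 0 < d → J.Nonempty → d * (d * p) ≤ I'.card →
        (∀ i ∈ I', ∀ j ∈ J, ∃ t ≤ len j, P j t ∈ Vt i) →
          ∃ v : ℕ → I, (∀ n < d, v n ∈ I') ∧ ∀ n n', n < n' → n' < d → ∀ j ∈ J, ∀ s ≤ len j,
            ∀ t ≤ len j, P j s ∈ Vt (v n) → P j t ∈ Vt (v n') → s < t := by
  classical
  set K : V → V → Prop := fun u v => (∃ i, u ∈ Vt i ∧ v ∈ Vt i) ∧ E u v with hK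
  have hKs : Sy K := fun u v h => ⟨by
    obtain ⟨i, h1, h2⟩ := h.1
    exact ⟨i, h2, h1⟩, hE u v h.2⟩
  obtain ⟨D, hD1, hD2, hD3, hD4, hD5⟩ := hcra V E K hE hKs (fun u v h => h.2) p A B hl
  obtain ⟨P, len, hP⟩ := hpth V D p A B hD4
  refine ⟨P, len, ⟨fun j => ⟨fun t ht => hD3 _ _ ((hP.pth j).1 t ht), (hP.pth j).2⟩, hP.st, hP.en,
    hP.dj⟩, ?_⟩
  intro d J I' hd0 hJ hcard hmeet
  obtain ⟨q, hq⟩ := hJ
  have hp : 0 < p := q.pos
  -- first positions
  have hm : ∀ i ∈ I', ∃ t, t ≤ len q ∧ P q t ∈ Vt i := fun i hi => by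
    obtain ⟨t, h1, h2⟩ := hmeet i hi q hq
    exact ⟨t, h1, h2⟩
  obtain ⟨f, hf⟩ : ∃ f : I → ℕ, ∀ i ∈ I', f i ≤ len q ∧ P q (f i) ∈ Vt i ∧
      ∀ t < f i, P q t ∉ Vt i := by
    refine ⟨fun i => if h : i ∈ I' then Nat.find (hm i h) else 0, fun i hi => ?_⟩
    simp only [hi, dif_pos]
    have h1 := Nat.find_spec (hm i hi)
    refine ⟨h1.1, h1.2, fun t ht h2 => ?_⟩
    exact Nat.find_min (hm i hi) ht ⟨by omega, h2⟩
  have hinj : Set.InjOn f (I' : Set I) := by
    intro i hi i' hi' h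
    by_contra hne
    have h1 := (hf i hi).2.1
    have h2 := (hf i' hi').2.1
    rw [← h] at h2
    exact Set.disjoint_left.1 (hd i i' hne) h1 h2
  set F : Finset ℕ := I'.image f with hF
  have hFc : F.card = I'.card := Finset.card_image_of_injOn hinj
  set g := F.orderEmbOfFin rfl with hg
  have hgm : ∀ x, g x ∈ F := fun x => Finset.orderEmbOfFin_mem F rfl x
  have hel : ∀ x : Fin F.card, ∃ i ∈ I', f i = g x := fun x => by
    obtain ⟨i, h1, h2⟩ := Finset.mem_image.1 (show g x ∈ Finset.image f I' from hgm x)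
    exact ⟨i, h1, h2⟩
  choose el hel1 hel2 using hel
  set Dd : ℕ := d * p with hDd
  have hDp : 0 < Dd := Nat.mul_pos hd0 hp
  have hlt : ∀ n < d, ∀ y < Dd, n * Dd + y < F.card := by
    intro n hn y hy
    have h1 : (n + 1) * Dd ≤ d * Dd := Nat.mul_le_mul_right _ hn
    have h2 : (n + 1) * Dd = n * Dd + Dd := by ring
    omega
  -- separators
  have hsep : ∀ n, ∃ S : Finset V, S.card < p ∧ (∀ h : 0 < n ∧ n < d,
      Sep (del D (P q (g ⟨n * Dd, by simpa using hlt n h.2 0 hDp⟩ - 1))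
        (P q (g ⟨n * Dd, by simpa using hlt n h.2 0 hDp⟩ - 1 + 1))) (S : Set V) A B) := by
    intro n
    by_cases h : 0 < n ∧ n < d
    · set a : Fin F.card := ⟨n * Dd, by simpa using hlt n h.2 0 hDp⟩ with ha
      have h0 : g ⟨0, by omega⟩ < g a := by
        apply g.strictMono
        rw [Fin.lt_def]
        exact Nat.mul_pos h.1 hDp
      have h1 := hf (el a) (hel1 a)
      rw [hel2 a] at h1
      have h2 : D (P q (g a - 1)) (P q (g a - 1 + 1)) := (hP.pth q).1 _ (by omega)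
      have h3 : ¬ K (P q (g a - 1)) (P q (g a - 1 + 1)) := by
        rintro ⟨⟨i, h3, h4⟩, -⟩
        rw [show g a - 1 + 1 = g a by omega] at h4
        have h5 : i = el a := by
          by_contra hne
          exact Set.disjoint_left.1 (hd i _ hne) h4 h1.2.1
        rw [h5] at h3
        exact h1.2.2 _ (by omega) h3
      obtain ⟨S, h4, h5⟩ := hD5 _ _ h2 h3
      exact ⟨S, h4, fun _ => h5⟩
    · exact ⟨∅, by simpa using hp, fun h' => absurd h' h⟩
  choose S hS1 hS2 using hsep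
  set T : Finset V := (Finset.range d).biUnion S with hT
  have hTc : T.card < Dd := by
    have h1 : T.card ≤ ∑ n ∈ Finset.range d, (S n).card := Finset.card_biUnion_le
    have h2 : ∑ n ∈ Finset.range d, (S n).card ≤ ∑ n ∈ Finset.range d, (p - 1) :=
      Finset.sum_le_sum fun n _ => by have := hS1 n; omega
    rw [Finset.sum_const, Finset.card_range, smul_eq_mul] at h2
    have h3 : d * (p - 1) < d * p := Nat.mul_lt_mul_of_pos_left (by omega) hd0
    omega
  -- the choice in the group n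
  have hch : ∀ n < d, ∃ y, ∃ h : n * Dd + y < F.card, y < Dd ∧
      ∀ v ∈ Vt (el ⟨n * Dd + y, h⟩), v ∉ T := by
    intro n hn
    by_contra hcon
    push Not at hcon
    have h1 : ∀ y : Fin Dd, ∃ v ∈ Vt (el ⟨n * Dd + y, hlt n hn y y.2⟩), v ∈ T := fun y =>
      hcon y (hlt n hn y y.2) y.2
    choose w hw1 hw2 using h1
    have h2 : Function.Injective w := by
      intro y y' hyy
      by_contra hne
      have h3 : el ⟨n * Dd + y, hlt n hn y y.2⟩ ≠ el ⟨n * Dd + y', hlt n hn y' y'.2⟩ := by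
        intro h
        have h4 := hel2 ⟨n * Dd + y, hlt n hn y y.2⟩
        rw [h, hel2] at h4
        have h5 := g.injective h4
        rw [Fin.mk.injEq] at h5
        exact hne (Fin.ext (by omega))
      have h4 := hw1 y
      rw [hyy] at h4
      exact Set.disjoint_left.1 (hd _ _ h3) h4 (hw1 y')
    have h3 : (Finset.univ.image w).card = Dd := by
      rw [Finset.card_image_of_injective _ h2, Finset.card_univ, Fintype.card_fin]
    have h4 : Finset.univ.image w ⊆ T := by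
      intro v hv
      rw [Finset.mem_image] at hv
      obtain ⟨y, -, rfl⟩ := hv
      exact hw2 y
    have := Finset.card_le_card h4
    omega
  have hI : ∃ i0 : I, i0 ∈ I' := by
    have h1 : 0 < d * (d * p) := Nat.mul_pos hd0 hDp
    exact Finset.card_pos.1 (lt_of_lt_of_le h1 hcard)
  obtain ⟨i0, hi0⟩ := hI
  have hv : ∀ n, ∃ i ∈ I', n < d → ∃ (y : ℕ) (h : n * Dd + y < F.card), y < Dd ∧
      i = el ⟨n * Dd + y, h⟩ ∧ ∀ v ∈ Vt i, v ∉ T := by
    intro n
    by_cases hn : n < d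
    · obtain ⟨y, h, h1, h2⟩ := hch n hn
      exact ⟨_, hel1 ⟨n * Dd + y, h⟩, fun _ => ⟨y, h, h1, rfl, h2⟩⟩
    · exact ⟨i0, hi0, fun h => absurd h hn⟩
  choose v hv1 hv2 using hv
  refine ⟨v, fun n _ => hv1 n, ?_⟩
  intro n n' hnn hn' j hj s hs t ht h1 h2
  obtain ⟨y, hy, hy1, hy2, hy3⟩ := hv2 n (by omega)
  obtain ⟨y', hy', hy1', hy2', hy3'⟩ := hv2 n' hn'
  have hc1 : 0 < n + 1 ∧ n + 1 < d := ⟨by omega, by omega⟩
  set a : Fin F.card := ⟨(n + 1) * Dd, by simpa using hlt (n + 1) hc1.2 0 hDp⟩ with ha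
  have h0 : g ⟨0, by omega⟩ < g a := by
    apply g.strictMono
    rw [Fin.lt_def]
    exact Nat.mul_pos hc1.1 hDp
  have hfa := hf (el a) (hel1 a)
  rw [hel2 a] at hfa
  have hnK : ¬ K (P q (g a - 1)) (P q (g a - 1 + 1)) := by
    rintro ⟨⟨i, h3, h4⟩, -⟩
    rw [show g a - 1 + 1 = g a by omega] at h4
    have h5 : i = el a := by
      by_contra hne
      exact Set.disjoint_left.1 (hd i _ hne) h4 hfa.2.1
    rw [h5] at h3
    exact hfa.2.2 _ (by omega) h3
  obtain ⟨x, hx⟩ := hcrb V D K hD1 hKs hD2 p A B P len hP q (g a - 1) (by omega) hnK (S (n + 1))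
    (hS1 (n + 1)) (hS2 (n + 1) hc1)
  have hcK : ∀ i, Cn K (Vt i) := fun i => (hc i).mono fun u v hu hv h => ⟨⟨i, hu, hv⟩, h⟩
  have hav : ∀ i, (∀ v ∈ Vt i, v ∉ T) → ∀ v ∈ Vt i, v ∉ S (n + 1) := fun i hi v hv h =>
    hi v hv (Finset.mem_biUnion.2 ⟨n + 1, Finset.mem_range.2 hc1.2, h⟩)
  have hA := (hx (Vt (v n)) (hcK _) (hav _ hy3)).1 ⟨f (v n), by
    rw [hy2, hel2]
    have : g ⟨n * Dd + y, hy⟩ < g a := by
      apply g.strictMono
      rw [Fin.lt_def]
      show n * Dd + y < (n + 1) * Dd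
      rw [Nat.add_mul, one_mul]
      omega
    omega, (hf _ (hv1 n)).2.1⟩ j s hs h1
  have hB := (hx (Vt (v n')) (hcK _) (hav _ hy3')).2 ⟨f (v n'), by
    rw [hy2', hel2]
    have : g a ≤ g ⟨n' * Dd + y', hy'⟩ := by
      apply g.monotone
      rw [Fin.le_def]
      show (n + 1) * Dd ≤ n' * Dd + y'
      have : (n + 1) * Dd ≤ n' * Dd := Nat.mul_le_mul_right _ (by omega)
      omega
    omega, (hf _ (hv1 n')).1, (hf _ (hv1 n')).2.1⟩ j t ht h2
  omega

theorem pf_CRC (hpth : T_PTH) (hcra : T_CRA) (hcrb : T_CRB) : T_CRC :=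
  fun V _ E hE I _ Vt hc hd p A B hl => crc_aux hcra hcrb hpth V E hE I Vt hc hd p A B hl

end Pool.Agent.H51.GM
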