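import Pool.Agent.H10.GM.Targets1

/-!
# Excluded grid theorem: the induction step of the selection (module SELS)
-/

set_option autoImplicit false

namespace Pool.Agent.H51.GM

open Pool.Agent.H55.GW Pool.Agent.H10.GM

theorem grm_mono {V : Type} {r : ℕ} {E E' : V → V → Prop} (h : GrM r E)
    (hE : ∀ u v, E u v → E' u v) : GrM r E' := by
  obtain ⟨B, h1, h2, h3, h4⟩ := h
  refine ⟨B, fun i hi j hj => (h1 i hi j hj).mono fun u v _ _ h => hE u v h, h2, ?_, ?_⟩
  · intro i j hi hj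
    obtain ⟨a, ha, b, hb, hab⟩ := h3 i j hi hj
    exact ⟨a, ha, b, hb, hE _ _ hab⟩
  · intro i j hi hj
    obtain ⟨a, ha, b, hb, hab⟩ := h4 i j hi hj
    exact ⟨a, ha, b, hb, hE _ _ hab⟩

/-- a path as a walk -/
theorem path_rin {V : Type} {E : V → V → Prop} {C : Set V} (P : ℕ → V) (n : ℕ)
    (h : ∀ t < n, E (P t) (P (t + 1))) (hC : ∀ t ≤ n, P t ∉ C) :
    RIn (rs E Cᶜ) {v | ∃ t ≤ n, P t = v} (P 0) (P n) := by
  have key : ∀ m ≤ n, RIn (rs E Cᶜ) {v | ∃ t ≤ n, P t = v} (P 0) (P m) := by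
    intro m
    induction m with
    | zero => exact fun _ => RIn.refl ⟨0, Nat.zero_le _, rfl⟩
    | succ m ih =>
      intro hm
      exact (ih (by omega)).tail ⟨h m (by omega), hC m (by omega), hC (m + 1) hm⟩ ⟨m + 1, hm, rfl⟩
  exact key n le_rfl

theorem pf_SELS (hgrp : T_GRP) : T_SELS := by
  classical
  intro r n κ hκ IH
  obtain ⟨p, M, hκp, hG⟩ := hgrp r κ hκ
  refine ⟨max p (n * M + 1), lt_of_lt_of_le (Nat.succ_pos _) (le_max_right _ _), ?_⟩
  intro V _ _ E hE J X Y hJ hL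
  rcases J.eq_empty_or_nonempty with rfl | ⟨j0, hj0⟩
  · right
    exact ⟨fun _ => Classical.arbitrary V, fun _ => Classical.arbitrary V, fun _ => ∅, by simp,
      by simp⟩
  set J1 := J.erase j0 with hJ1d
  have hJ1 : J1.card ≤ n := by
    rw [hJ1d, Finset.card_erase_of_mem hj0]
    omega
  obtain ⟨x, y, S, hS, hSd⟩ := (hL j0 hj0).mono (le_max_right p (n * M + 1)) (le_refl _) (le_refl _)
  set Vt : Fin (n * M + 1) → Set V := fun i => {z | RIn E (S i) (x i) z} with hVt
  have hVs : ∀ i, Vt i ⊆ S i := fun i z hz => RIn.right_mem hz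
  have hVc : ∀ i, Cn E (Vt i) := fun i => Cn.comp hE (hS i).2.2.left_mem
  have hVd : ∀ i i', i ≠ i' → Disjoint (Vt i) (Vt i') := fun i i' h =>
    (hSd i i' h).mono (hVs i) (hVs i')
  have hP : ∀ j, ∃ (P : Fin p → ℕ → V) (len : Fin p → ℕ), j ∈ J1 → PSys E p (X j) (Y j) P len ∧
      ∀ I' : Finset (Fin (n * M + 1)), M ≤ I'.card →
        (∀ i ∈ I', {j : Fin p | ∀ t ≤ len j, P j t ∉ Vt i}.ncard < κ) → GrM r E := by
    intro j
    by_cases hj : j ∈ J1
    · obtain ⟨P, len, h1, h2⟩ := hG V E hE (Fin (n * M + 1)) Vt hVc hVd (X j) (Y j)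
        ((hL j (Finset.mem_of_mem_erase hj)).mono (le_max_left p (n * M + 1)) (le_refl _) (le_refl _))
      exact ⟨P, len, fun _ => ⟨h1, h2⟩⟩
    · exact ⟨fun _ _ => Classical.arbitrary V, fun _ => 0, fun h => absurd h hj⟩
  choose P len hP using hP
  by_cases h : ∃ i, ∀ j ∈ J1, κ ≤ {a : Fin p | ∀ t ≤ len j a, P j a t ∉ Vt i}.ncard
  · obtain ⟨i, hi⟩ := h
    have hL1 : ∀ j ∈ J1, Lnk (rs E (Vt i)ᶜ) κ (X j \ Vt i) (Y j \ Vt i) := by
      intro j hj
      have h1 := hi j hj
      obtain ⟨hPs, -⟩ := hP j hj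
      set Av : Set (Fin p) := {a : Fin p | ∀ t ≤ len j a, P j a t ∉ Vt i} with hAv
      rw [Set.ncard_eq_toFinset_card'] at h1
      set e := Finset.orderEmbOfCardLe Av.toFinset h1 with he
      have hem : ∀ a, e a ∈ Av := fun a => by
        have := Finset.orderEmbOfCardLe_mem Av.toFinset h1 a
        rwa [Set.mem_toFinset] at this
      refine ⟨fun a => P j (e a) 0, fun a => P j (e a) (len j (e a)),
        fun a => {v | ∃ t ≤ len j (e a), P j (e a) t = v}, fun a => ⟨⟨hPs.st _, hem a 0 (Nat.zero_le _)⟩,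
          ⟨hPs.en _, hem a _ le_rfl⟩, path_rin _ _ (hPs.pth _).1 (hem a)⟩, ?_⟩
      intro a b hab
      rw [Set.disjoint_left]
      rintro v ⟨s, hs, rfl⟩ ⟨t, ht, h2⟩
      exact hPs.dj (e b) (e a) (fun h3 => hab (e.injective h3).symm) t ht s hs h2
    rcases IH V (rs E (Vt i)ᶜ) (rs_sy hE) J1 (fun j => X j \ Vt i) (fun j => Y j \ Vt i) hJ1 hL1 with
      hg | ⟨x', y', S', hS', hSd'⟩
    · exact Or.inl (grm_mono hg fun u v h => h.1)
    · right
      refine ⟨fun j => if j = j0 then x i else x' j, fun j => if j = j0 then y i else y' j,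
        fun j => if j = j0 then Vt i else S' j \ Vt i, ?_, ?_⟩
      · intro j hj
        by_cases hjj : j = j0
        · subst hjj
          simp only [if_true]
          exact ⟨(hS i).1, (hS i).2.1, (hVc i).2 _ (RIn.refl (hS i).2.2.left_mem) _ (hS i).2.2⟩
        · simp only [hjj, if_false]
          obtain ⟨h1, h2, h3⟩ := hS' j (Finset.mem_erase.2 ⟨hjj, hj⟩)
          refine ⟨h1.1, h2.1, ⟨h3.1, h1.2⟩, ?_⟩
          refine Relation.ReflTransGen.mono ?_ _ _ h3.2
          rintro u v ⟨h4, h5⟩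
          exact ⟨h4.1, h5, h4.2.2⟩
      · intro j hj j' hj' hne
        by_cases h1 : j = j0
        · have h2 : j' ≠ j0 := fun h => hne (h1.trans h.symm)
          simp only [h1, h2, if_true, if_false]
          exact Set.disjoint_sdiff_right
        · by_cases h2 : j' = j0
          · simp only [h1, h2, if_true, if_false]
            exact Set.disjoint_sdiff_left
          · simp only [h1, h2, if_false]
            exact (hSd' j (Finset.mem_erase.2 ⟨h1, hj⟩) j' (Finset.mem_erase.2 ⟨h2, hj'⟩) hne).mono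
              Set.sdiff_subset Set.sdiff_subset
  · left
    push Not at h
    choose jf hjf1 hjf2 using h
    have hlt : J1.card * M < (Finset.univ : Finset (Fin (n * M + 1))).card := by
      rw [Finset.card_univ, Fintype.card_fin]
      have := Nat.mul_le_mul_right M hJ1
      omega
    obtain ⟨j, hj, hcard⟩ := Finset.exists_lt_card_fiber_of_mul_lt_card_of_maps_to
      (fun i _ => hjf1 i) hlt
    refine (hP j hj).2 _ hcard.le ?_
    intro i hi
    have := (Finset.mem_filter.1 hi).2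
    rw [← this]
    exact hjf2 i

end Pool.Agent.H51.GM
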